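import Pool.Agent.H90.Frc.Luz

/-!
# Consistency of `cov(M) = ℵ₁ < c = ℵ_{ω₁}` together with a `c`-Luzin set

All definitions used by the statement are in `Pool/Agent/H90/Frc/Stmt.lean`: first-order formulas
of set theory, satisfaction, models of ZFC, and the statement `LuzinStatement` about a structure
`(M, E)` all of whose quantifiers range over `M`.

The model is a countable generic extension of the universe of small sets (names in `Type 1` over a
partial order in `Type`): the partial order is the full support product of the collapses of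
`2^ℶ_i` to `(ℶ_i)⁺`, `i < ω₁`, times the countable support product of `ℶ_{ω₁}` Silver forcings.
-/

set_option autoImplicit false

namespace Pool.Agent.Results.MP_35f06d_lc.LuzinConsistent

open Pool.Agent.H90.Frc Ordinal Cardinal

/-- There is a sentence `s` of the language of set theory which says, in every structure, that
`cov(M) = ℵ₁ < c = ℵ_{ω₁}` and there is a `c`-Luzin set, and this sentence holds in some model of
ZFC. -/
theorem result : ∃ s : Fml 0,
    (∀ (M : Type) (E : M → M → Prop), Sat E s Fin.elim0 ↔ LuzinStatement E) ∧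
    ∃ (M : Type) (E : M → M → Prop), ZFC E ∧ Sat E s Fin.elim0 := by
  obtain ⟨s, hs⟩ := dfn_luzinStatement (n := 0)
  refine ⟨s, fun M E => hs M E _, ?_⟩
  obtain ⟨g, -, hL, -⟩ := exists_gen_set (⊤ : Cond) (n := 0) Fin.elim0
    (L := {onN Cond ω, onN Cond (ω_ 1), onN Cond (ℶ_ (ω_ 1)).ord, ltN Cond, rN, famN, luzN})
    (by simp)
  obtain ⟨w, hw⟩ := hL (onN Cond ω) (by simp)
  obtain ⟨o, ho⟩ := hL (onN Cond (ω_ 1)) (by simp)
  obtain ⟨Λ, hΛ⟩ := hL (onN Cond (ℶ_ (ω_ 1)).ord) (by simp)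
  obtain ⟨l, hl⟩ := hL (ltN Cond) (by simp)
  obtain ⟨R, hR⟩ := hL rN (by simp)
  obtain ⟨F, hF⟩ := hL famN (by simp)
  obtain ⟨L, hLuz⟩ := hL luzN (by simp)
  refine ⟨g.M, g.E, g.zfc, (hs g.M g.E _).2 ?_⟩
  have hz := g.zfc
  have hLuzin := isLuzin_luzN hw hl hR hΛ hLuz hF
  have hΛR : SizeLe g.E Λ R :=
    hz.sizeLe_trans (sizeLe_lam_luz hw hΛ hLuz) (hz.sizeLe_of_sub hLuzin.1)
  have hRΛ : SizeLe g.E R Λ := sizeLe_reals hw hl hR hΛ
  have hoΛ : g.E o Λ := by
    refine (onN_mem_iff ho hΛ).2 ?_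
    rw [lt_ord, card_omega]
    exact (aleph1_le_tk i0).trans_lt (tk_lt_lam i0)
  have hocard := isCard_lam hΛ
  refine ⟨w, o, Λ, w, l, R, onN_isOmega hw, isOmega1_onN hw ho, isAlephOmega1_lam hw hΛ,
    isRat_ltN hw hl, isReals_rN hw hl hR, ⟨covLe_omega1 hw hl hR ho, not_covLe_omega hw hl hR⟩,
    ⟨?_, ?_⟩, ⟨hRΛ, hΛR⟩, L, hLuzin⟩
  · exact hz.sizeLe_trans (hz.sizeLe_of_sub ((onN_isOrd hΛ).1 o hoΛ)) hΛR
  · intro h
    exact hocard.2 o hoΛ (hz.sizeLe_trans hΛR h)

end Pool.Agent.Results.MP_35f06d_lc.LuzinConsistent
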