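import Mathlib

set_option autoImplicit false

namespace Pool.Agent.Results.MP_35f06d_lc.LuzinIffCof

open Cardinal Ordinal Set

/-- `add(M)`: the least size of a family of meager sets of reals whose union is not meager. -/
noncomputable def addM : Cardinal.{0} :=
  sInf {κ | ∃ F : Set (Set ℝ), #F = κ ∧ (∀ M ∈ F, IsMeagre M) ∧ ¬ IsMeagre (⋃₀ F)}

/-- `cov(M)`: the least size of a family of meager sets of reals whose union is `ℝ`. -/
noncomputable def covM : Cardinal.{0} :=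
  sInf {κ | ∃ F : Set (Set ℝ), #F = κ ∧ (∀ M ∈ F, IsMeagre M) ∧ ⋃₀ F = Set.univ}

/-- `cof(M)`: the least size of a family of meager sets of reals such that every meager set of
reals is a subset of a member of the family. -/
noncomputable def cofM : Cardinal.{0} :=
  sInf {κ | ∃ F : Set (Set ℝ), #F = κ ∧ (∀ M ∈ F, IsMeagre M) ∧
    ∀ N : Set ℝ, IsMeagre N → ∃ M ∈ F, N ⊆ M}

/-- `L` is a `𝔠`-Luzin set. -/
def IsCLuzin (L : Set ℝ) : Prop :=
  #L = 𝔠 ∧ ∀ M : Set ℝ, IsMeagre M → #(L ∩ M : Set ℝ) < 𝔠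

/-! ### Basic facts -/

theorem isMeagre_singleton (x : ℝ) : IsMeagre ({x} : Set ℝ) := by
  apply IsNowhereDense.isMeagre
  rw [isClosed_singleton.isNowhereDense_iff]
  exact interior_singleton x

theorem not_isMeagre_univ : ¬ IsMeagre (Set.univ : Set ℝ) := by
  intro h
  have h1 : (∅ : Set ℝ) ∈ residual ℝ := by
    have := h
    rw [IsMeagre, Set.compl_univ] at this
    exact this
  have := dense_of_mem_residual h1
  simpa using this.nonempty

/-- A comeager set of reals has cardinality `𝔠`. -/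
theorem mk_compl_of_isMeagre {M : Set ℝ} (hM : IsMeagre M) : #(Mᶜ : Set ℝ) = 𝔠 := by
  obtain ⟨t, hts, htG, htd⟩ := mem_residual.1 hM
  have hnc : ¬ t.Countable := by
    intro hc
    have h1 : tᶜ ∈ residual ℝ := by
      have h2 : IsMeagre t := by
        rw [← Set.biUnion_of_singleton t]
        exact isMeagre_biUnion hc (fun x _ => isMeagre_singleton x)
      exact h2
    have h3 : t ∈ residual ℝ := mem_residual.2 ⟨t, le_rfl, htG, htd⟩
    have h4 := Filter.inter_mem h3 h1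
    rw [Set.inter_compl_self] at h4
    have := dense_of_mem_residual h4
    simpa using this.nonempty
  have : StandardBorelSpace t := htG.measurableSet.standardBorel
  have e := PolishSpace.measurableEquivNatBoolOfNotCountable (α := t)
    (fun h => hnc (Set.countable_coe_iff.1 h))
  have h1 : #t = 𝔠 := by
    rw [Cardinal.mk_congr e.toEquiv]
    simp
  apply le_antisymm
  · exact (Cardinal.mk_set_le _).trans Cardinal.mk_real.le
  · rw [← h1]
    exact Cardinal.mk_le_mk_of_subset hts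


theorem isMeagre_sUnion_of_lt {F : Set (Set ℝ)} (hF : ∀ M ∈ F, IsMeagre M) (hlt : #F < addM) :
    IsMeagre (⋃₀ F) := by
  by_contra hcon
  exact absurd (csInf_le' (show #F ∈ {κ | ∃ F : Set (Set ℝ), #F = κ ∧ (∀ M ∈ F, IsMeagre M) ∧
    ¬ IsMeagre (⋃₀ F)} from ⟨F, rfl, hF, hcon⟩)) (not_le.2 hlt)

theorem isMeagre_iUnion_of_lt {ι : Type} (N : ι → Set ℝ) (hN : ∀ i, IsMeagre (N i))
    (hlt : #ι < addM) : IsMeagre (⋃ i, N i) := by
  rw [← Set.sUnion_range]
  apply isMeagre_sUnion_of_lt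
  · rintro M ⟨i, rfl⟩
    exact hN i
  · exact Cardinal.mk_range_le.trans_lt hlt

theorem isMeagre_of_lt_addM {A : Set ℝ} (hlt : #A < addM) : IsMeagre A := by
  have h : A = ⋃ a : A, ({(a : ℝ)} : Set ℝ) := by
    ext x
    simp
  rw [h]
  exact isMeagre_iUnion_of_lt _ (fun a => isMeagre_singleton _) hlt

theorem addM_le_continuum : addM ≤ 𝔠 := by
  by_contra hcon
  rw [not_le] at hcon
  apply not_isMeagre_univ
  apply isMeagre_of_lt_addM
  rwa [Cardinal.mk_univ, Cardinal.mk_real]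

theorem exists_cofM : ∃ F : Set (Set ℝ), #F = cofM ∧ (∀ M ∈ F, IsMeagre M) ∧
    ∀ N : Set ℝ, IsMeagre N → ∃ M ∈ F, N ⊆ M := by
  have hne : {κ | ∃ F : Set (Set ℝ), #F = κ ∧ (∀ M ∈ F, IsMeagre M) ∧
    ∀ N : Set ℝ, IsMeagre N → ∃ M ∈ F, N ⊆ M}.Nonempty :=
    ⟨_, {M | IsMeagre M}, rfl, fun M hM => hM, fun N hN => ⟨N, hN, le_rfl⟩⟩
  exact csInf_mem hne

theorem sUnion_eq_univ_of_cofinal {F : Set (Set ℝ)}
    (hF : ∀ N : Set ℝ, IsMeagre N → ∃ M ∈ F, N ⊆ M) : ⋃₀ F = Set.univ := by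
  ext x
  simp only [Set.mem_sUnion, Set.mem_univ, iff_true]
  obtain ⟨M, hM, hx⟩ := hF {x} (isMeagre_singleton x)
  exact ⟨M, hM, hx rfl⟩

theorem covM_le_cofM : covM ≤ cofM := by
  obtain ⟨F, hc, hm, hF⟩ := exists_cofM
  exact csInf_le' ⟨F, hc, hm, sUnion_eq_univ_of_cofinal hF⟩

theorem addM_le_covM : addM ≤ covM := by
  have hne : {κ | ∃ F : Set (Set ℝ), #F = κ ∧ (∀ M ∈ F, IsMeagre M) ∧
      ⋃₀ F = Set.univ}.Nonempty :=
    ⟨_, {M | IsMeagre M}, rfl, fun M hM => hM,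
      sUnion_eq_univ_of_cofinal fun N hN => ⟨N, hN, le_rfl⟩⟩
  apply le_csInf hne
  rintro κ ⟨F, hc, hm, hF⟩
  apply csInf_le'
  exact ⟨F, hc, hm, by rw [hF]; exact not_isMeagre_univ⟩

/-! ### From `cf(𝔠) = cof(M)` to a `𝔠`-Luzin set -/

/-- The index type: a well-order of type `𝔠`. -/
abbrev J : Type := (𝔠 : Cardinal.{0}).ord.ToType

theorem mk_J : #J = 𝔠 := Cardinal.mk_ord_toType _

theorem mk_Iio_J (a : J) : #(Set.Iio a) < 𝔠 := by
  have h := Cardinal.mk_Iio_lt a (by rw [Ordinal.type_toType, mk_J])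
  rwa [mk_J] at h

theorem cof_J : Order.cof J = (𝔠 : Cardinal.{0}).ord.cof := Ordinal.cof_toType _

/-- Injective choice from `𝔠` many sets of size `𝔠`. -/
theorem exists_injective_choice (G : J → Set ℝ) (hG : ∀ a, #(G a) = 𝔠) :
    ∃ x : J → ℝ, Function.Injective x ∧ ∀ a, x a ∈ G a := by
  have key : ∀ (a : J) (ih : ∀ b, b < a → ℝ), ∃ y : ℝ, y ∈ G a ∧
      ∀ b (hb : b < a), y ≠ ih b hb := by
    intro a ih
    by_contra hcon
    push Not at hcon
    have hsub : G a ⊆ Set.range (fun b : Set.Iio a => ih b.1 b.2) := by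
      intro y hy
      obtain ⟨b, hb, he⟩ := hcon y hy
      exact ⟨⟨b, hb⟩, he.symm⟩
    have h1 : #(G a) ≤ #(Set.Iio a) :=
      (Cardinal.mk_le_mk_of_subset hsub).trans Cardinal.mk_range_le
    rw [hG a] at h1
    exact absurd h1 (not_le.2 (mk_Iio_J a))
  choose c hc1 hc2 using key
  let x : J → ℝ := (wellFounded_lt (α := J)).fix c
  have hx : ∀ a, x a = c a (fun b _ => x b) := fun a => WellFounded.fix_eq _ _ _
  refine ⟨x, ?_, fun a => ?_⟩
  · have hne : ∀ a b, b < a → x a ≠ x b := by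
      intro a b hb
      rw [hx a]
      exact hc2 a (fun b _ => x b) b hb
    intro a b hab
    rcases lt_trichotomy a b with h | h | h
    · exact absurd hab.symm (hne b a h)
    · exact h
    · exact absurd hab (hne a b h)
  · rw [hx a]
    exact hc1 a _

theorem aleph0_le_cof_c : ℵ₀ ≤ (𝔠 : Cardinal.{0}).ord.cof := by
  rw [Ordinal.aleph0_le_cof_iff, Ordinal.one_lt_cof_iff]
  exact Cardinal.isSuccLimit_ord Cardinal.aleph0_le_continuum

theorem exists_luzin (h : addM = cofM) (hcof : (𝔠 : Cardinal.{0}).ord.cof = cofM) :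
    ∃ L : Set ℝ, IsCLuzin L := by
  obtain ⟨F, hFc, hFm, hF⟩ := exists_cofM
  obtain ⟨S, hSc, hS⟩ := Order.exists_cof_eq (α := J)
  rw [cof_J, hcof] at hS
  have hκ : ℵ₀ ≤ cofM := by
    rw [← hcof]
    exact aleph0_le_cof_c
  let I : Type := cofM.ord.ToType
  have hI : #I = cofM := Cardinal.mk_ord_toType _
  obtain ⟨eF⟩ : Nonempty (I ≃ F) := by rw [← Cardinal.eq, hI, hFc]
  obtain ⟨eS⟩ : Nonempty (I ≃ S) := by rw [← Cardinal.eq, hI, hS]
  have hIio : ∀ i : I, #(Set.Iio i) < cofM := by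
    intro i
    have h := Cardinal.mk_Iio_lt i (by rw [Ordinal.type_toType, hI])
    rwa [hI] at h
  have hIic : ∀ i : I, #(Set.Iic i) < cofM := by
    intro i
    rw [← Set.Iio_insert]
    refine (Cardinal.mk_insert_le).trans_lt ?_
    exact Cardinal.add_lt_of_lt hκ (hIio i) (Cardinal.one_lt_aleph0.trans_le hκ)
  let N : I → Set ℝ := fun i => ⋃ j : Set.Iic i, (eF j.1 : Set ℝ)
  have hN : ∀ i, IsMeagre (N i) := by
    intro i
    apply isMeagre_iUnion_of_lt
    · intro j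
      exact hFm _ (eF j.1).2
    · rw [h]
      exact hIic i
  have hNmono : ∀ i j, i ≤ j → N i ⊆ N j := by
    intro i j hij x hx
    obtain ⟨k, hk⟩ := Set.mem_iUnion.1 hx
    exact Set.mem_iUnion.2 ⟨⟨k.1, (Set.mem_Iic.1 k.2).trans hij⟩, hk⟩
  -- the index function
  have hidx : ∀ a : J, ∃ i : I, a ≤ (eS i : J) := by
    intro a
    obtain ⟨b, hb, hab⟩ := hSc a
    exact ⟨eS.symm ⟨b, hb⟩, by simpa using hab⟩
  choose idx hidx using hidx
  obtain ⟨x, hxinj, hx⟩ := exists_injective_choice (fun a => (N (idx a))ᶜ)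
    (fun a => mk_compl_of_isMeagre (hN _))
  refine ⟨Set.range x, ?_, ?_⟩
  · rw [Cardinal.mk_range_eq _ hxinj, mk_J]
  · intro M hM
    obtain ⟨M', hM', hMM'⟩ := hF M hM
    let j : I := eF.symm ⟨M', hM'⟩
    have hMN : M ⊆ N j := by
      intro y hy
      refine Set.mem_iUnion.2 ⟨⟨j, Set.mem_Iic.2 le_rfl⟩, ?_⟩
      simpa [j] using hMM' hy
    -- the points of `L ∩ M` have index below `j`
    have hlt : ∀ a, x a ∈ M → idx a < j := by
      intro a ha
      by_contra hcon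
      rw [not_lt] at hcon
      exact hx a (hNmono j (idx a) hcon (hMN ha))
    -- the elements `eS i`, `i < j`, are not cofinal
    have hnc : ¬ IsCofinal (Set.range (fun i : Set.Iio j => (eS i.1 : J))) := by
      intro hc
      have h1 := Order.cof_le hc
      rw [cof_J, hcof] at h1
      exact absurd (h1.trans Cardinal.mk_range_le) (not_le.2 (hIio j))
    rw [not_isCofinal_iff] at hnc
    obtain ⟨b, hb⟩ := hnc
    have hsub : (Set.range x ∩ M) ⊆ x '' Set.Iio b := by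
      rintro y ⟨⟨a, rfl⟩, hy⟩
      refine ⟨a, ?_, rfl⟩
      have h1 : idx a < j := hlt a hy
      have h2 := hb (eS (idx a) : J) ⟨⟨idx a, h1⟩, rfl⟩
      exact (hidx a).trans_lt h2
    exact ((Cardinal.mk_le_mk_of_subset hsub).trans Cardinal.mk_image_le).trans_lt (mk_Iio_J b)

/-! ### From a `𝔠`-Luzin set to `cf(𝔠) = cof(M)` -/

theorem mk_le_of_cover {ι : Type} (N : ι → Set ℝ) (hcov : (⋃ i, N i) = Set.univ) (L : Set ℝ) :
    #L ≤ #ι * ⨆ i, #(L ∩ N i : Set ℝ) := by
  have h : L = ⋃ i, (L ∩ N i) := by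
    rw [← Set.inter_iUnion, hcov, Set.inter_univ]
  calc #L = #(⋃ i, (L ∩ N i) : Set ℝ) := by rw [← h]
    _ ≤ Cardinal.sum (fun i => #(L ∩ N i : Set ℝ)) := Cardinal.mk_iUnion_le_sum_mk
    _ ≤ #ι * ⨆ i, #(L ∩ N i : Set ℝ) := Cardinal.sum_le_mk_mul_iSup _

theorem cof_eq_of_luzin (h : addM = cofM) {L : Set ℝ} (hL : IsCLuzin L) :
    (𝔠 : Cardinal.{0}).ord.cof = cofM := by
  obtain ⟨F, hFc, hFm, hF⟩ := exists_cofM
  have hcov : (⋃ M : F, (M : Set ℝ)) = Set.univ := by
    rw [← Set.sUnion_eq_iUnion]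
    exact sUnion_eq_univ_of_cofinal hF
  have hκc : cofM ≤ 𝔠 := h ▸ addM_le_continuum
  apply le_antisymm
  · -- `cf(𝔠) ≤ cof(M)`
    by_contra hcon
    rw [not_le] at hcon
    have h1 := mk_le_of_cover (fun M : F => (M : Set ℝ)) hcov L
    rw [hL.1] at h1
    have h2 : (⨆ M : F, #(L ∩ (M : Set ℝ) : Set ℝ)) < 𝔠 := by
      apply Cardinal.iSup_lt_of_lt_cof_ord
      · rw [hFc]; exact hcon
      · intro M
        exact hL.2 _ (hFm _ M.2)
    have h3 : #F < 𝔠 := by
      rw [hFc]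
      exact hcon.trans_le (Ordinal.cof_ord_le _)
    exact absurd h1 (not_le.2 (Cardinal.mul_lt_of_lt Cardinal.aleph0_le_continuum h3 h2))
  · -- `cof(M) ≤ cf(𝔠)`
    by_contra hcon
    rw [not_le] at hcon
    have hsing : (𝔠 : Cardinal.{0}).ord.cof < 𝔠 := hcon.trans_le hκc
    obtain ⟨S, hSc, hS⟩ := Order.exists_cof_eq (α := J)
    rw [cof_J] at hS
    -- uniform bound
    have hbound : ∃ μ : Cardinal.{0}, μ < 𝔠 ∧ ∀ N : Set ℝ, IsMeagre N → #(L ∩ N : Set ℝ) ≤ μ := by
      by_contra hc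
      push Not at hc
      have h1 : ∀ s : S, ∃ N : Set ℝ, IsMeagre N ∧ #(Set.Iio (s : J)) < #(L ∩ N : Set ℝ) :=
        fun s => hc _ (mk_Iio_J s)
      choose N hN1 hN2 using h1
      have hNm : IsMeagre (⋃ s, N s) := by
        apply isMeagre_iUnion_of_lt _ hN1
        rw [hS, h]
        exact hcon
      have hlt := hL.2 _ hNm
      have hcov2 : (⋃ s : S, Set.Iio (s : J)) = Set.univ := by
        ext a
        simp only [Set.mem_iUnion, Set.mem_Iio, Set.mem_univ, iff_true]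
        have hnt : ∃ b : J, a < b := by
          by_contra hcc
          push Not at hcc
          have : (Set.Iic a) = Set.univ := by
            ext b; simp [hcc b]
          have h3 : #(Set.Iic a) < 𝔠 := by
            rw [← Set.Iio_insert]
            refine (Cardinal.mk_insert_le).trans_lt ?_
            exact Cardinal.add_lt_of_lt Cardinal.aleph0_le_continuum (mk_Iio_J a)
              (Cardinal.one_lt_aleph0.trans_le Cardinal.aleph0_le_continuum)
          rw [this, Cardinal.mk_univ, mk_J] at h3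
          exact lt_irrefl _ h3
        obtain ⟨b, hb⟩ := hnt
        obtain ⟨s, hs, hbs⟩ := hSc b
        exact ⟨⟨s, hs⟩, hb.trans_le hbs⟩
      have h4 : #J ≤ #S * #(L ∩ (⋃ s, N s) : Set ℝ) := by
        calc #J = #(⋃ s : S, Set.Iio (s : J)) := by rw [hcov2, Cardinal.mk_univ]
          _ ≤ Cardinal.sum (fun s : S => #(Set.Iio (s : J))) := Cardinal.mk_iUnion_le_sum_mk
          _ ≤ Cardinal.sum (fun _ : S => #(L ∩ (⋃ s, N s) : Set ℝ)) := by
              apply Cardinal.sum_le_sum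
              intro s
              refine (hN2 s).le.trans (Cardinal.mk_le_mk_of_subset ?_)
              exact Set.inter_subset_inter_right _ (Set.subset_iUnion N s)
          _ = #S * #(L ∩ (⋃ s, N s) : Set ℝ) := by
              rw [Cardinal.sum_const', ]
      rw [mk_J] at h4
      refine absurd h4 (not_le.2 (Cardinal.mul_lt_of_lt Cardinal.aleph0_le_continuum ?_ hlt))
      rw [hS]
      exact hsing
    obtain ⟨μ₀, hμ₀, hb₀⟩ := hbound
    obtain ⟨μ, hμ, hμinf, hb⟩ : ∃ μ : Cardinal.{0}, μ < 𝔠 ∧ ℵ₀ ≤ μ ∧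
        ∀ N : Set ℝ, IsMeagre N → #(L ∩ N : Set ℝ) ≤ μ :=
      ⟨max μ₀ ℵ₀, max_lt hμ₀ Cardinal.aleph0_lt_continuum, le_max_right _ _,
        fun N hN => (hb₀ N hN).trans (le_max_left _ _)⟩
    have hsucc : Order.succ μ ≤ 𝔠 := Order.succ_le_of_lt hμ
    have hκμ : cofM ≤ Order.succ μ := by
      by_contra hcc
      rw [not_le] at hcc
      have h5 : Order.succ μ ≤ #L := by rw [hL.1]; exact hsucc
      obtain ⟨L', hL', hcard⟩ := Cardinal.le_mk_iff_exists_subset.1 h5
      have hm : IsMeagre L' := by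
        apply isMeagre_of_lt_addM
        rw [hcard, h]
        exact hcc
      have h6 := hb L' hm
      rw [Set.inter_eq_self_of_subset_right hL', hcard] at h6
      exact absurd h6 (not_le.2 (Order.lt_succ μ))
    have h7 := mk_le_of_cover (fun M : F => (M : Set ℝ)) hcov L
    rw [hL.1, hFc] at h7
    have h8 : (⨆ M : F, #(L ∩ (M : Set ℝ) : Set ℝ)) ≤ μ :=
      ciSup_le' fun M => hb _ (hFm _ M.2)
    have h9 : 𝔠 ≤ Order.succ μ := by
      calc 𝔠 ≤ cofM * ⨆ M : F, #(L ∩ (M : Set ℝ) : Set ℝ) := h7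
        _ ≤ Order.succ μ * μ := mul_le_mul' hκμ h8
        _ = Order.succ μ := by
            apply Cardinal.mul_eq_left (hμinf.trans (Order.le_succ μ)) (Order.le_succ μ)
            exact (Cardinal.aleph0_pos.trans_le hμinf).ne'
    have h10 : (𝔠 : Cardinal.{0}) = Order.succ μ := le_antisymm h9 hsucc
    have hreg : (𝔠 : Cardinal.{0}).IsRegular := by
      rw [h10]
      exact Cardinal.isRegular_succ hμinf
    rw [hreg.cof_ord] at hsing
    exact lt_irrefl _ hsing

/-- If `add(M) = cof(M)` (for example if `cof(M) = ℵ₁`), then `cov(M)` has the same value and a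
`𝔠`-Luzin set exists if and only if the cofinality of `𝔠` is `cof(M)`. -/
theorem result (h : addM = cofM) :
    covM = cofM ∧ ((∃ L : Set ℝ, IsCLuzin L) ↔ (𝔠 : Cardinal.{0}).ord.cof = cofM) :=
  ⟨le_antisymm covM_le_cofM (h ▸ addM_le_covM),
    fun ⟨_, hL⟩ => cof_eq_of_luzin h hL, exists_luzin h⟩

end Pool.Agent.Results.MP_35f06d_lc.LuzinIffCof
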